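import Mathlib
import Pool.Agent.Work.MP_80b727_an.Statement
import Pool.Agent.Work.MP_80b727_an.AsdimLower
import Pool.Agent.Work.MP_80b727_an.Comb
import Pool.Agent.Work.MP_80b727_an.Partition

/-!
# The nuclear dimension of the uniform Roe algebra of `ℤ²` is smaller than its asymptotic dimension

Winter and Zacharias asked whether `dim_nuc (C*_u(X)) = asdim X` for every countable discrete
metric space `X` of bounded geometry.  We show that this fails for `X = ℤ²`:
`dim_nuc (C*_u(ℤ²)) ≤ 1` while `asdim ℤ² = 2`.

Sketch.  A finite set of operators of propagation at most `r` is approximated through a two-coloured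
noncommutative partition of unity: positive contractions `z_j` of finite rank and uniformly bounded
support, mutually orthogonal within each of the two colours, with `∑ z_j² = 1`, almost commuting
with the given operators.  Away from small squares (holes) at the corners of a huge checkerboard the
`z_j` are multiplication operators; the topological obstruction at a corner is removed by rotating
two of the four labels inside `2 × 2` matrices over the hole and a far away partner square on which
the given operators look almost the same (pigeonhole principle).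
-/

namespace Pool.Agent.Results.MP_80b727_an.NucDimZ2

open Pool.Agent.RoeZ2

theorem nucDimLE_one_int2_aux : Roe.NucDimLE (Roe.uniformRoe (ℤ × ℤ)) 1 :=
  Roe.nucDimLE_one_of_comb _ Roe.boundedGeometry_int2 4 Roe.comb_int2

theorem nucDimLE_one_int2 : NucDimLE (CuStar (ℤ × ℤ)) 1 := nucDimLE_one_int2_aux

theorem nucDim_le_one : nucDim (CuStar (ℤ × ℤ)) ≤ 1 :=
  sInf_le ⟨1, by simp, nucDimLE_one_int2⟩

theorem asdim_int2 : asdim (ℤ × ℤ) = 2 := Roe.asdim_int2

/-- `dim_nuc (C*_u(ℤ²)) ≤ 1 < 2 = asdim ℤ²`, so the question of Winter and Zacharias has a
negative answer. -/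
theorem result : nucDim (CuStar (ℤ × ℤ)) ≤ 1 ∧ asdim (ℤ × ℤ) = 2 ∧
    ¬ ∀ (X : Type) [MetricSpace X] [Countable X] [DiscreteTopology X],
      BoundedGeometry X → nucDim (CuStar X) = asdim X := by
  refine ⟨nucDim_le_one, asdim_int2, fun h => ?_⟩
  have h1 := h (ℤ × ℤ) Roe.boundedGeometry_int2
  have h2 := nucDim_le_one
  rw [h1, asdim_int2] at h2
  exact absurd h2 (by decide)

end Pool.Agent.Results.MP_80b727_an.NucDimZ2
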